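import Pool.Agent.Helper22.BT.NECK
import Pool.Agent.Helper81.BT.UINT
import Pool.Agent.Helper12.BT.LAP

/-! Block MASS of the bubble tower project (helper22). -/

namespace Pool.Helper4.BT
open MeasureTheory Metric Set Laplacian InnerProductSpace

theorem mass_cont_U {μ : ℝ} (hμ : 0 < μ) (z : E) : Continuous (U μ z) := by
  have := contDiff_U (n := 0) hμ z
  exact this.continuous

/-- the pointwise majorant of `u ^ 2` -/
noncomputable def massG (μ T : ℝ) (c : E) (I : Finset ℕ) (mu : ℕ → ℝ) (z : ℕ → E) (x : E) : ℝ :=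
  T ^ 2 + U μ c x ^ 2 + ∑ l ∈ I, U (mu l) (z l) x ^ 2

theorem mass_sq_le {k : ℕ} {Λ C τ : ℝ} {u : E → ℝ} {lam : ℝ} {c : E} {μ ρ T σ : ℝ} {I : Finset ℕ}
    {mu : ℕ → ℝ} {z : ℕ → E} (h : BD k Λ C τ u lam c μ ρ T σ I mu z) {x : E}
    (hx : x ∈ closedBall c (2 * ρ)) :
    u x ^ 2 ≤ 3 * (k + 1) * C ^ 2 * massG μ T c I mu z x := by
  have hb := h.bound x hx
  have hk : (0 : ℝ) ≤ k := Nat.cast_nonneg k
  set Sg := ∑ l ∈ I, U (mu l) (z l) x with hSg
  have h1 : Sg ^ 2 ≤ k * ∑ l ∈ I, U (mu l) (z l) x ^ 2 := by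
    have h2 := sq_sum_le_card_mul_sum_sq (s := I) (f := fun l => U (mu l) (z l) x)
    refine h2.trans ?_
    have : (I.card : ℝ) ≤ k := by exact_mod_cast h.hI
    exact mul_le_mul_of_nonneg_right this (Finset.sum_nonneg fun l _ => sq_nonneg _)
  have h3 : u x ^ 2 ≤ (C * (T + U μ c x + Sg)) ^ 2 := by
    rw [← sq_abs (u x)]
    exact pow_le_pow_left₀ (abs_nonneg _) hb 2
  have h4 : (T + U μ c x + Sg) ^ 2 ≤ 3 * (T ^ 2 + U μ c x ^ 2 + Sg ^ 2) := by
    nlinarith [sq_nonneg (T - U μ c x), sq_nonneg (T - Sg), sq_nonneg (U μ c x - Sg)]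
  have h5 : T ^ 2 + U μ c x ^ 2 + Sg ^ 2 ≤ (k + 1) * massG μ T c I mu z x := by
    unfold massG
    have h6 : 0 ≤ ∑ l ∈ I, U (mu l) (z l) x ^ 2 := Finset.sum_nonneg fun l _ => sq_nonneg _
    nlinarith [mul_nonneg hk (sq_nonneg T), mul_nonneg hk (sq_nonneg (U μ c x))]
  calc u x ^ 2 ≤ (C * (T + U μ c x + Sg)) ^ 2 := h3
    _ = C ^ 2 * (T + U μ c x + Sg) ^ 2 := by ring
    _ ≤ C ^ 2 * (3 * ((k + 1) * massG μ T c I mu z x)) := by
        refine mul_le_mul_of_nonneg_left (h4.trans ?_) (sq_nonneg C)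
        linarith
    _ = 3 * (k + 1) * C ^ 2 * massG μ T c I mu z x := by ring

theorem mass_intOn {f : E → ℝ} (hf : Continuous f) (c : E) (r : ℝ) :
    IntegrableOn f (closedBall c r) :=
  hf.continuousOn.integrableOn_compact (isCompact_closedBall c r)

/-- The integral of the majorant over a measurable subset of the ball. -/
theorem mass_intG {k : ℕ} {Λ C τ : ℝ} {u : E → ℝ} {lam : ℝ} {c : E} {μ ρ T σ : ℝ} {I : Finset ℕ}
    {mu : ℕ → ℝ} {z : ℕ → E} (h : BD k Λ C τ u lam c μ ρ T σ I mu z) {S : Set E}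
    (hS : MeasurableSet S) (hSB : S ⊆ closedBall c (2 * ρ)) :
    ∫ x in S, u x ^ 2 ≤ 3 * (k + 1) * C ^ 2 *
      ((64 * neckV + k * I0) * (τ * μ ^ 2) + ∫ x in S, U μ c x ^ 2) := by
  have hk : (0 : ℝ) ≤ k := Nat.cast_nonneg k
  have hμ := h.hμ
  have hρ := h.hρ.1
  have hI0 := I0_pos
  have hu : Continuous u := h.hu.continuous
  have hcU := mass_cont_U hμ c
  have hcUl : ∀ l ∈ I, Continuous (U (mu l) (z l)) := fun l hl => mass_cont_U (h.hin l hl).1 _
  have hiU : IntegrableOn (fun x => U μ c x ^ 2) S :=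
    (integral_U_sq hμ c).1.integrableOn
  have hiUl : ∀ l ∈ I, IntegrableOn (fun x => U (mu l) (z l) x ^ 2) S := fun l hl =>
    (integral_U_sq (h.hin l hl).1 (z l)).1.integrableOn
  have hSfin : (volume : Measure E) S < ⊤ :=
    (measure_mono hSB).trans_lt measure_closedBall_lt_top
  have hiT : IntegrableOn (fun _ : E => T ^ 2) S := integrableOn_const hSfin.ne
  have hiu : IntegrableOn (fun x => u x ^ 2) S :=
    (mass_intOn (hu.pow 2) c (2 * ρ)).mono_set hSB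
  have hisum : IntegrableOn (fun x => ∑ l ∈ I, U (mu l) (z l) x ^ 2) S :=
    integrable_finsetSum I hiUl
  have hiG : IntegrableOn (massG μ T c I mu z) S := (hiT.add hiU).add hisum
  have h1 : ∫ x in S, u x ^ 2 ≤ ∫ x in S, 3 * (k + 1) * C ^ 2 * massG μ T c I mu z x := by
    refine setIntegral_mono_on hiu (hiG.const_mul _) hS fun x hx => ?_
    exact mass_sq_le h (hSB hx)
  refine h1.trans ?_
  rw [integral_const_mul]
  refine mul_le_mul_of_nonneg_left ?_ (by positivity)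
  have h2 : ∫ x in S, massG μ T c I mu z x =
      (∫ x in S, T ^ 2) + (∫ x in S, U μ c x ^ 2) + ∑ l ∈ I, ∫ x in S, U (mu l) (z l) x ^ 2 := by
    have e1 : ∫ x in S, massG μ T c I mu z x =
        (∫ x in S, (T ^ 2 + U μ c x ^ 2)) + ∫ x in S, ∑ l ∈ I, U (mu l) (z l) x ^ 2 :=
      integral_add (hiT.add hiU) hisum
    rw [e1, integral_add hiT hiU, integral_finsetSum I hiUl]
  rw [h2]
  have h3 : ∫ x in S, T ^ 2 ≤ 64 * neckV * (τ * μ ^ 2) := by
    rw [setIntegral_const, smul_eq_mul]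
    have h4 : (volume : Measure E).real S ≤ (2 * ρ) ^ 6 * neckV := by
      rw [← neck_vol c (by positivity)]
      exact measureReal_mono hSB measure_closedBall_lt_top.ne
    calc (volume : Measure E).real S * T ^ 2 ≤ (2 * ρ) ^ 6 * neckV * T ^ 2 :=
          mul_le_mul_of_nonneg_right h4 (sq_nonneg T)
      _ = 64 * neckV * (ρ ^ 6 * T ^ 2) := by ring
      _ ≤ 64 * neckV * (τ * μ ^ 2) :=
          mul_le_mul_of_nonneg_left h.r1 (by have := neckV_pos; positivity)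
  have h5 : ∑ l ∈ I, ∫ x in S, U (mu l) (z l) x ^ 2 ≤ k * I0 * (τ * μ ^ 2) := by
    have h6 : ∀ l ∈ I, ∫ x in S, U (mu l) (z l) x ^ 2 ≤ I0 * (τ * μ ^ 2) := by
      intro l hl
      obtain ⟨g1, g2, g3⟩ := h.hin l hl
      have g4 : ∫ x in S, U (mu l) (z l) x ^ 2 ≤ ∫ x, U (mu l) (z l) x ^ 2 :=
        setIntegral_le_integral (integral_U_sq g1 (z l)).1
          (Filter.Eventually.of_forall fun x => sq_nonneg _)
      rw [(integral_U_sq g1 (z l)).2] at g4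
      refine g4.trans (mul_le_mul_of_nonneg_left ?_ hI0.le)
      calc mu l ^ 2 ≤ (τ * μ) ^ 2 := pow_le_pow_left₀ g1.le g2 2
        _ = τ * τ * μ ^ 2 := by ring
        _ ≤ τ * 1 * μ ^ 2 := by
            refine mul_le_mul_of_nonneg_right ?_ (sq_nonneg μ)
            exact mul_le_mul_of_nonneg_left h.hτ.2 h.hτ.1.le
        _ = τ * μ ^ 2 := by ring
    calc ∑ l ∈ I, ∫ x in S, U (mu l) (z l) x ^ 2 ≤ ∑ l ∈ I, I0 * (τ * μ ^ 2) := Finset.sum_le_sum h6
      _ = I.card * (I0 * (τ * μ ^ 2)) := by rw [Finset.sum_const, nsmul_eq_mul]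
      _ ≤ k * (I0 * (τ * μ ^ 2)) := by
          have : (I.card : ℝ) ≤ k := by exact_mod_cast h.hI
          refine mul_le_mul_of_nonneg_right this ?_
          have := h.hτ.1
          positivity
      _ = k * I0 * (τ * μ ^ 2) := by ring
  linarith

/-- The integral of the majorant with the weight `|x - c|`. -/
theorem mass_intGw {k : ℕ} {Λ C τ : ℝ} {u : E → ℝ} {lam : ℝ} {c : E} {μ ρ T σ : ℝ} {I : Finset ℕ}
    {mu : ℕ → ℝ} {z : ℕ → E} (h : BD k Λ C τ u lam c μ ρ T σ I mu z) :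
    ∫ x in closedBall c (2 * ρ), u x ^ 2 * ‖x - c‖ ≤ 3 * (k + 1) * C ^ 2 *
      (2 * (64 * neckV + k * I0) * (ρ * (τ * μ ^ 2)) + ∫ x, U μ c x ^ 2 * ‖x - c‖) := by
  have hk : (0 : ℝ) ≤ k := Nat.cast_nonneg k
  have hμ := h.hμ
  have hρ := h.hρ.1
  have hI0 := I0_pos
  have hu : Continuous u := h.hu.continuous
  have hcU := mass_cont_U hμ c
  set S := closedBall c (2 * ρ) with hSdef
  have hcUl : ∀ l ∈ I, Continuous (U (mu l) (z l)) := fun l hl => mass_cont_U (h.hin l hl).1 _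
  obtain ⟨Cd, hCd, hUd⟩ := integral_U_sq_dist
  have hiU : IntegrableOn (fun x => U μ c x ^ 2 * ‖x - c‖) S := (hUd μ c hμ).1.integrableOn
  have hiUl : ∀ l ∈ I, IntegrableOn (fun x => 2 * ρ * U (mu l) (z l) x ^ 2) S := fun l hl =>
    ((integral_U_sq (h.hin l hl).1 (z l)).1.const_mul (2 * ρ)).integrableOn
  have hSfin : (volume : Measure E) S < ⊤ := measure_closedBall_lt_top
  have hiT : IntegrableOn (fun _ : E => 2 * ρ * T ^ 2) S := integrableOn_const hSfin.ne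
  have hiu : IntegrableOn (fun x => u x ^ 2 * ‖x - c‖) S := by
    refine mass_intOn (f := fun x => u x ^ 2 * ‖x - c‖) ?_ c (2 * ρ)
    fun_prop
  have hisum : IntegrableOn (fun x => ∑ l ∈ I, 2 * ρ * U (mu l) (z l) x ^ 2) S :=
    integrable_finsetSum I hiUl
  have h1 : ∫ x in S, u x ^ 2 * ‖x - c‖ ≤ ∫ x in S, 3 * (k + 1) * C ^ 2 *
      (2 * ρ * T ^ 2 + U μ c x ^ 2 * ‖x - c‖ + ∑ l ∈ I, 2 * ρ * U (mu l) (z l) x ^ 2) := by
    refine setIntegral_mono_on hiu (((hiT.add hiU).add hisum).const_mul _)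
      isClosed_closedBall.measurableSet fun x hx => ?_
    have h2 := mass_sq_le h hx
    have hx' : ‖x - c‖ ≤ 2 * ρ := mem_closedBall_iff_norm.1 hx
    have h3 : massG μ T c I mu z x * ‖x - c‖ ≤
        2 * ρ * T ^ 2 + U μ c x ^ 2 * ‖x - c‖ + ∑ l ∈ I, 2 * ρ * U (mu l) (z l) x ^ 2 := by
      unfold massG
      rw [← Finset.mul_sum]
      have h4 : 0 ≤ ∑ l ∈ I, U (mu l) (z l) x ^ 2 := Finset.sum_nonneg fun l _ => sq_nonneg _
      nlinarith [mul_nonneg (sub_nonneg.2 hx') (sq_nonneg T), mul_nonneg (sub_nonneg.2 hx') h4]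
    calc u x ^ 2 * ‖x - c‖ ≤ 3 * (k + 1) * C ^ 2 * massG μ T c I mu z x * ‖x - c‖ :=
          mul_le_mul_of_nonneg_right h2 (norm_nonneg _)
      _ = 3 * (k + 1) * C ^ 2 * (massG μ T c I mu z x * ‖x - c‖) := by ring
      _ ≤ _ := mul_le_mul_of_nonneg_left h3 (by positivity)
  refine h1.trans ?_
  rw [integral_const_mul]
  refine mul_le_mul_of_nonneg_left ?_ (by positivity)
  have h2 : ∫ x in S, (2 * ρ * T ^ 2 + U μ c x ^ 2 * ‖x - c‖ +
      ∑ l ∈ I, 2 * ρ * U (mu l) (z l) x ^ 2) =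
      (∫ x in S, 2 * ρ * T ^ 2) + (∫ x in S, U μ c x ^ 2 * ‖x - c‖) +
        ∑ l ∈ I, ∫ x in S, 2 * ρ * U (mu l) (z l) x ^ 2 := by
    have e1 : ∫ x in S, (2 * ρ * T ^ 2 + U μ c x ^ 2 * ‖x - c‖ +
        ∑ l ∈ I, 2 * ρ * U (mu l) (z l) x ^ 2) =
        (∫ x in S, (2 * ρ * T ^ 2 + U μ c x ^ 2 * ‖x - c‖)) +
          ∫ x in S, ∑ l ∈ I, 2 * ρ * U (mu l) (z l) x ^ 2 :=
      integral_add (hiT.add hiU) hisum
    rw [e1, integral_add hiT hiU, integral_finsetSum I hiUl]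
  rw [h2]
  have h3 : ∫ x in S, 2 * ρ * T ^ 2 ≤ 2 * (64 * neckV) * (ρ * (τ * μ ^ 2)) := by
    rw [setIntegral_const, smul_eq_mul, neck_vol c (by positivity)]
    calc (2 * ρ) ^ 6 * neckV * (2 * ρ * T ^ 2) = 2 * (64 * neckV) * (ρ * (ρ ^ 6 * T ^ 2)) := by ring
      _ ≤ 2 * (64 * neckV) * (ρ * (τ * μ ^ 2)) := by
          have := neckV_pos
          exact mul_le_mul_of_nonneg_left (mul_le_mul_of_nonneg_left h.r1 hρ.le) (by positivity)
  have h4 : ∫ x in S, U μ c x ^ 2 * ‖x - c‖ ≤ ∫ x, U μ c x ^ 2 * ‖x - c‖ :=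
    setIntegral_le_integral (hUd μ c hμ).1
      (Filter.Eventually.of_forall fun x => mul_nonneg (sq_nonneg _) (norm_nonneg _))
  have h5 : ∑ l ∈ I, ∫ x in S, 2 * ρ * U (mu l) (z l) x ^ 2 ≤ 2 * (k * I0) * (ρ * (τ * μ ^ 2)) := by
    have h6 : ∀ l ∈ I, ∫ x in S, 2 * ρ * U (mu l) (z l) x ^ 2 ≤ 2 * ρ * (I0 * (τ * μ ^ 2)) := by
      intro l hl
      obtain ⟨g1, g2, g3⟩ := h.hin l hl
      rw [integral_const_mul]
      refine mul_le_mul_of_nonneg_left ?_ (by positivity)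
      have g4 : ∫ x in S, U (mu l) (z l) x ^ 2 ≤ ∫ x, U (mu l) (z l) x ^ 2 :=
        setIntegral_le_integral (integral_U_sq g1 (z l)).1
          (Filter.Eventually.of_forall fun x => sq_nonneg _)
      rw [(integral_U_sq g1 (z l)).2] at g4
      refine g4.trans (mul_le_mul_of_nonneg_left ?_ hI0.le)
      calc mu l ^ 2 ≤ (τ * μ) ^ 2 := pow_le_pow_left₀ g1.le g2 2
        _ = τ * τ * μ ^ 2 := by ring
        _ ≤ τ * 1 * μ ^ 2 := by
            refine mul_le_mul_of_nonneg_right ?_ (sq_nonneg μ)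
            exact mul_le_mul_of_nonneg_left h.hτ.2 h.hτ.1.le
        _ = τ * μ ^ 2 := by ring
    calc ∑ l ∈ I, ∫ x in S, 2 * ρ * U (mu l) (z l) x ^ 2
        ≤ ∑ l ∈ I, 2 * ρ * (I0 * (τ * μ ^ 2)) := Finset.sum_le_sum h6
      _ = I.card * (2 * ρ * (I0 * (τ * μ ^ 2))) := by rw [Finset.sum_const, nsmul_eq_mul]
      _ ≤ k * (2 * ρ * (I0 * (τ * μ ^ 2))) := by
          have : (I.card : ℝ) ≤ k := by exact_mod_cast h.hI
          refine mul_le_mul_of_nonneg_right this ?_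
          have := h.hτ.1
          positivity
      _ = 2 * (k * I0) * (ρ * (τ * μ ^ 2)) := by ring
  have e : 2 * (64 * neckV + k * I0) * (ρ * (τ * μ ^ 2)) =
      2 * (64 * neckV) * (ρ * (τ * μ ^ 2)) + 2 * (k * I0) * (ρ * (τ * μ ^ 2)) := by ring
  rw [e]
  linarith

/-- `∫ |u|` over the ball. -/
theorem mass_abs {k : ℕ} {Λ C τ : ℝ} {u : E → ℝ} {lam : ℝ} {c : E} {μ ρ T σ : ℝ} {I : Finset ℕ}
    {mu : ℕ → ℝ} {z : ℕ → E} (h : BD k Λ C τ u lam c μ ρ T σ I mu z) {M : ℝ}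
    (hM : ∫ x in closedBall c (2 * ρ), u x ^ 2 ≤ M * μ ^ 2) :
    ∫ x in closedBall c (2 * ρ), |u x| ≤ (M + 64 * neckV) * √τ * μ ^ 2 := by
  have hμ := h.hμ
  have hρ := h.hρ.1
  have hu : Continuous u := h.hu.continuous
  have hV := neckV_pos
  set S := closedBall c (2 * ρ) with hSdef
  set a : ℝ := μ / ρ ^ 3 with ha
  have ha0 : 0 < a := by positivity
  have h1 : ∫ x in S, |u x| ≤ ∫ x in S, (a⁻¹ * u x ^ 2 + a) / 2 := by
    refine setIntegral_mono_on (mass_intOn (hu.abs) c (2 * ρ)) ?_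
      isClosed_closedBall.measurableSet fun x _ => ?_
    · refine mass_intOn (f := fun x => (a⁻¹ * u x ^ 2 + a) / 2) ?_ c (2 * ρ)
      fun_prop
    · have h2 : 0 ≤ a⁻¹ * (|u x| - a) ^ 2 := by positivity
      have h3 : a⁻¹ * (|u x| - a) ^ 2 = a⁻¹ * u x ^ 2 - 2 * |u x| + a := by
        have h4 : |u x| ^ 2 = u x ^ 2 := sq_abs _
        rw [sub_sq, h4]
        field_simp
      linarith
  have h2 : ∫ x in S, (a⁻¹ * u x ^ 2 + a) / 2 = (a⁻¹ * (∫ x in S, u x ^ 2) +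
      (2 * ρ) ^ 6 * neckV * a) / 2 := by
    have hi1 : IntegrableOn (fun x => a⁻¹ * u x ^ 2) S := (mass_intOn (hu.pow 2) c (2 * ρ)).const_mul _
    have hi2 : IntegrableOn (fun _ : E => a) S := integrableOn_const measure_closedBall_lt_top.ne
    rw [integral_div, integral_add hi1 hi2, integral_const_mul, setIntegral_const,
      smul_eq_mul, neck_vol c (by positivity)]
  have hρ3 : ρ ^ 3 ≤ √τ * μ := by
    have h3 : ρ ^ 3 ≤ √(τ * μ ^ 2) := by
      refine Real.le_sqrt_of_sq_le ?_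
      calc (ρ ^ 3) ^ 2 = ρ ^ 6 * 1 ^ 2 := by ring
        _ ≤ ρ ^ 6 * T ^ 2 := by
            refine mul_le_mul_of_nonneg_left ?_ (by positivity)
            exact pow_le_pow_left₀ zero_le_one h.hT 2
        _ ≤ τ * μ ^ 2 := h.r1
    rwa [Real.sqrt_mul h.hτ.1.le, Real.sqrt_sq hμ.le] at h3
  rw [h2] at h1
  refine h1.trans ?_
  have h4 : a⁻¹ * (∫ x in S, u x ^ 2) ≤ a⁻¹ * (M * μ ^ 2) :=
    mul_le_mul_of_nonneg_left hM (by positivity)
  have hM0 : 0 ≤ M * μ ^ 2 := le_trans (integral_nonneg fun x => sq_nonneg _) hM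
  have hM1 : 0 ≤ M := by
    by_contra hneg
    rw [not_le] at hneg
    have : M * μ ^ 2 < 0 := mul_neg_of_neg_of_pos hneg (by positivity)
    linarith
  have h5 : a⁻¹ * (M * μ ^ 2) = M * μ * ρ ^ 3 := by
    rw [ha]; field_simp
  have h6 : (2 * ρ) ^ 6 * neckV * a = 64 * neckV * μ * ρ ^ 3 := by
    rw [ha]; field_simp; ring
  rw [h6]
  rw [h5] at h4
  have h7 : (M * μ * ρ ^ 3 + 64 * neckV * μ * ρ ^ 3) / 2 ≤ (M + 64 * neckV) * √τ * μ ^ 2 := by
    have h8 : (M + 64 * neckV) * μ * ρ ^ 3 ≤ (M + 64 * neckV) * μ * (√τ * μ) :=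
      mul_le_mul_of_nonneg_left hρ3 (by positivity)
    have h9 : 0 ≤ (M + 64 * neckV) * μ * ρ ^ 3 := by positivity
    nlinarith
  linarith

/-- The comparison of `∫ χ F` with `s I0 μ²` for `F = |u| u` and `F = u²`. -/
theorem mass_cmp {k : ℕ} {Λ C τ : ℝ} {u : E → ℝ} {lam : ℝ} {c : E} {μ ρ T σ : ℝ} {I : Finset ℕ}
    {mu : ℕ → ℝ} {z : ℕ → E} (h : BD k Λ C τ u lam c μ ρ T σ I mu z) {F : E → ℝ} {s Ct : ℝ}
    (hF : Continuous F) (hs : |s| = 1) (h1 : ∀ x, |F x| ≤ u x ^ 2)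
    (h2 : ∀ x, |F x - s * U μ c x ^ 2| ≤
      |u x - σ * U μ c x| * (|u x - σ * U μ c x| + 2 * U μ c x))
    (hCt : 0 < Ct) (htail : ∀ (μ K : ℝ) (z : E), 0 < μ → 0 < K →
      ∫ x in (closedBall z (K * μ))ᶜ, U μ z x ^ 2 ≤ Ct * μ ^ 2 / K ^ 2) :
    |(∫ x, chi c ρ x * F x) - s * (I0 * μ ^ 2)| ≤
      (3 + I0 + Ct + 3 * (k + 1) * C ^ 2 * (64 * neckV + k * I0 + Ct)) * √τ * μ ^ 2 := by
  have hk : (0 : ℝ) ≤ k := Nat.cast_nonneg k
  have hμ := h.hμ
  have hρ := h.hρ.1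
  have hτ := h.hτ.1
  have hI0 := I0_pos
  have hV := neckV_pos
  have hu : Continuous u := h.hu.continuous
  have hcU := mass_cont_U hμ c
  have hcχ : Continuous (chi c ρ) := (contDiff_chi (n := 0) c ρ).continuous
  set S := closedBall c (2 * ρ) with hSdef
  set K := closedBall c (μ / τ) with hKdef
  have hKm : MeasurableSet K := isClosed_closedBall.measurableSet
  have hSm : MeasurableSet S := isClosed_closedBall.measurableSet
  have hμτ : μ / τ ≤ ρ := by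
    rw [div_le_iff₀ hτ]
    have := h.r2
    have h3 : μ ^ 2 ≤ (ρ * τ) ^ 2 := by rw [mul_pow]; linarith
    exact le_of_sq_le_sq h3 (by positivity)
  have hKS : K ⊆ S := closedBall_subset_closedBall (by linarith)
  have hτs : τ ≤ √τ := by
    refine Real.le_sqrt_of_sq_le ?_
    nlinarith [h.hτ.2]
  have hsq0 : 0 < √τ := Real.sqrt_pos.2 hτ
  have hsqsq : √τ * √τ = τ := Real.mul_self_sqrt hτ.le
  have hτ2 : τ ^ 2 ≤ √τ := by nlinarith [h.hτ.2]
  set w : E → ℝ := fun x => u x - σ * U μ c x with hw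
  have hcw : Continuous w := by simp only [hw]; fun_prop
  have hiU := (integral_U_sq hμ c).1
  have hIU := (integral_U_sq hμ c).2
  have hicF : IntegrableOn (fun x => chi c ρ x * F x) S :=
    mass_intOn (hcχ.mul hF) c (2 * ρ)
  -- decomposition of the two integrals
  have e1 : ∫ x, chi c ρ x * F x = ∫ x in S, chi c ρ x * F x := by
    refine (setIntegral_eq_integral_of_forall_compl_eq_zero fun x hx => ?_).symm
    rw [hSdef, mem_closedBall_iff_norm, not_le] at hx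
    rw [chi_eq_zero hρ hx.le, zero_mul]
  have e2 : ∫ x in S, chi c ρ x * F x =
      (∫ x in K, chi c ρ x * F x) + ∫ x in S \ K, chi c ρ x * F x := by
    rw [← setIntegral_union disjoint_sdiff_self_right (hSm.diff hKm) (hicF.mono_set hKS)
      (hicF.mono_set sdiff_subset), union_sdiff_cancel hKS]
  have e3 : ∫ x in K, chi c ρ x * F x = ∫ x in K, F x := by
    refine setIntegral_congr_fun hKm fun x hx => ?_
    have : ‖x - c‖ ≤ ρ := (mem_closedBall_iff_norm.1 hx).trans hμτ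
    simp only [chi_eq_one hρ this, one_mul]
  have e4 : I0 * μ ^ 2 = (∫ x in K, U μ c x ^ 2) + ∫ x in Kᶜ, U μ c x ^ 2 := by
    rw [← hIU, integral_add_compl hKm hiU]
  have htl : ∫ x in Kᶜ, U μ c x ^ 2 ≤ Ct * τ ^ 2 * μ ^ 2 := by
    have h3 := htail μ (1 / τ) c hμ (by positivity)
    have h4 : 1 / τ * μ = μ / τ := by ring
    rw [h4] at h3
    refine h3.trans (le_of_eq ?_)
    field_simp
  have htl0 : 0 ≤ ∫ x in Kᶜ, U μ c x ^ 2 := integral_nonneg fun x => sq_nonneg _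
  -- the inner part
  have hin : |(∫ x in K, F x) - s * ∫ x in K, U μ c x ^ 2| ≤ (2 + I0) * √τ * μ ^ 2 := by
    have hiF : IntegrableOn F K := mass_intOn hF c _
    have hiU' : IntegrableOn (fun x => s * U μ c x ^ 2) K := (hiU.const_mul s).integrableOn
    rw [← integral_const_mul, ← integral_sub hiF hiU']
    have hiw : IntegrableOn (fun x => w x ^ 2) K := mass_intOn (hcw.pow 2) c _
    have h3 : ‖∫ x in K, (F x - s * U μ c x ^ 2)‖ ≤
        ∫ x in K, (w x ^ 2 + (√τ * U μ c x ^ 2 + (√τ)⁻¹ * w x ^ 2)) := by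
      refine norm_integral_le_of_norm_le ?_ (Filter.Eventually.of_forall fun x => ?_)
      · exact hiw.add ((hiU.const_mul (√τ)).integrableOn.add (hiw.const_mul _))
      · rw [Real.norm_eq_abs]
        refine (h2 x).trans ?_
        have h4 : 0 ≤ (√τ)⁻¹ * (√τ * U μ c x - |w x|) ^ 2 := by positivity
        have h5 : (√τ)⁻¹ * (√τ * U μ c x - |w x|) ^ 2 =
            √τ * U μ c x ^ 2 - 2 * (U μ c x * |w x|) + (√τ)⁻¹ * w x ^ 2 := by
          have h6 : |w x| ^ 2 = w x ^ 2 := sq_abs _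
          rw [sub_sq, h6]
          field_simp
        have h7 : |w x| * |w x| = w x ^ 2 := by rw [← sq_abs (w x)]; ring
        have h8 : |u x - σ * U μ c x| = |w x| := rfl
        rw [h8, mul_add, h7]
        linarith
    have h4 : ∫ x in K, (w x ^ 2 + (√τ * U μ c x ^ 2 + (√τ)⁻¹ * w x ^ 2)) =
        (∫ x in K, w x ^ 2) + (√τ * (∫ x in K, U μ c x ^ 2) + (√τ)⁻¹ * ∫ x in K, w x ^ 2) := by
      have i1 : IntegrableOn (fun x => √τ * U μ c x ^ 2) K := (hiU.const_mul (√τ)).integrableOn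
      have i2 : IntegrableOn (fun x => (√τ)⁻¹ * w x ^ 2) K := hiw.const_mul _
      have i3 : IntegrableOn (fun x => √τ * U μ c x ^ 2 + (√τ)⁻¹ * w x ^ 2) K := i1.add i2
      rw [integral_add hiw i3, integral_add i1 i2, integral_const_mul, integral_const_mul]
    have hcore : ∫ x in K, w x ^ 2 ≤ τ * μ ^ 2 := h.core
    have hUK : ∫ x in K, U μ c x ^ 2 ≤ I0 * μ ^ 2 := by
      rw [← hIU]
      exact setIntegral_le_integral hiU (Filter.Eventually.of_forall fun x => sq_nonneg _)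
    rw [← Real.norm_eq_abs]
    refine h3.trans ?_
    rw [h4]
    have h5 : (√τ)⁻¹ * (∫ x in K, w x ^ 2) ≤ √τ * μ ^ 2 := by
      calc (√τ)⁻¹ * (∫ x in K, w x ^ 2) ≤ (√τ)⁻¹ * (τ * μ ^ 2) :=
            mul_le_mul_of_nonneg_left hcore (by positivity)
        _ = (√τ)⁻¹ * (√τ * √τ * μ ^ 2) := by rw [hsqsq]
        _ = √τ * μ ^ 2 := by field_simp
    have h6 : √τ * (∫ x in K, U μ c x ^ 2) ≤ √τ * (I0 * μ ^ 2) :=
      mul_le_mul_of_nonneg_left hUK hsq0.le
    have h7 : τ * μ ^ 2 ≤ √τ * μ ^ 2 := mul_le_mul_of_nonneg_right hτs (sq_nonneg μ)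
    calc (∫ x in K, w x ^ 2) + (√τ * (∫ x in K, U μ c x ^ 2) + (√τ)⁻¹ * ∫ x in K, w x ^ 2)
        ≤ √τ * μ ^ 2 + (√τ * (I0 * μ ^ 2) + √τ * μ ^ 2) := by linarith
      _ = (2 + I0) * √τ * μ ^ 2 := by ring
  -- the outer part
  have hout : |∫ x in S \ K, chi c ρ x * F x| ≤
      3 * (k + 1) * C ^ 2 * (64 * neckV + k * I0 + Ct) * √τ * μ ^ 2 := by
    have h3 : ‖∫ x in S \ K, chi c ρ x * F x‖ ≤ ∫ x in S \ K, u x ^ 2 := by
      refine norm_integral_le_of_norm_le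
        ((mass_intOn (hu.pow 2) c (2 * ρ)).mono_set sdiff_subset)
        (Filter.Eventually.of_forall fun x => ?_)
      rw [norm_mul, Real.norm_eq_abs, Real.norm_eq_abs, abs_of_nonneg (chi_nonneg _ _ _)]
      calc chi c ρ x * |F x| ≤ 1 * u x ^ 2 :=
            mul_le_mul (chi_le_one _ _ _) (h1 x) (abs_nonneg _) zero_le_one
        _ = u x ^ 2 := one_mul _
    have h4 := mass_intG h (hSm.diff hKm) (sdiff_subset : S \ K ⊆ S)
    have h5 : ∫ x in S \ K, U μ c x ^ 2 ≤ Ct * τ ^ 2 * μ ^ 2 := by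
      refine le_trans ?_ htl
      refine setIntegral_mono_set hiU.integrableOn
        (Filter.Eventually.of_forall fun x => sq_nonneg _) ?_
      exact Filter.Eventually.of_forall fun x hx => hx.2
    rw [← Real.norm_eq_abs]
    refine h3.trans (h4.trans ?_)
    have h6 : (64 * neckV + k * I0) * (τ * μ ^ 2) + ∫ x in S \ K, U μ c x ^ 2 ≤
        (64 * neckV + k * I0 + Ct) * (√τ * μ ^ 2) := by
      have h7 : (64 * neckV + k * I0) * (τ * μ ^ 2) ≤ (64 * neckV + k * I0) * (√τ * μ ^ 2) :=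
        mul_le_mul_of_nonneg_left (mul_le_mul_of_nonneg_right hτs (sq_nonneg μ)) (by positivity)
      have h8 : Ct * τ ^ 2 * μ ^ 2 ≤ Ct * (√τ * μ ^ 2) := by
        rw [mul_assoc]
        exact mul_le_mul_of_nonneg_left (mul_le_mul_of_nonneg_right hτ2 (sq_nonneg μ)) hCt.le
      calc _ ≤ (64 * neckV + k * I0) * (√τ * μ ^ 2) + Ct * (√τ * μ ^ 2) := by linarith
        _ = _ := by ring
    calc _ ≤ 3 * (k + 1) * C ^ 2 * ((64 * neckV + k * I0 + Ct) * (√τ * μ ^ 2)) :=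
          mul_le_mul_of_nonneg_left h6 (by positivity)
      _ = _ := by ring
  have htl' : |s * ∫ x in Kᶜ, U μ c x ^ 2| ≤ Ct * √τ * μ ^ 2 := by
    rw [abs_mul, hs, one_mul, abs_of_nonneg htl0]
    refine htl.trans ?_
    exact mul_le_mul_of_nonneg_right (mul_le_mul_of_nonneg_left hτ2 hCt.le) (sq_nonneg μ)
  have hdec : (∫ x, chi c ρ x * F x) - s * (I0 * μ ^ 2) =
      ((∫ x in K, F x) - s * ∫ x in K, U μ c x ^ 2) + (∫ x in S \ K, chi c ρ x * F x) -
        s * ∫ x in Kᶜ, U μ c x ^ 2 := by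
    rw [e1, e2, e3, e4]; ring
  rw [hdec]
  have hfin := abs_sub (((∫ x in K, F x) - s * ∫ x in K, U μ c x ^ 2) +
    (∫ x in S \ K, chi c ρ x * F x)) (s * ∫ x in Kᶜ, U μ c x ^ 2)
  have hfin2 := abs_add_le ((∫ x in K, F x) - s * ∫ x in K, U μ c x ^ 2)
    (∫ x in S \ K, chi c ρ x * F x)
  have hfin3 : (3 + I0 + Ct + 3 * (k + 1) * C ^ 2 * (64 * neckV + k * I0 + Ct)) * √τ * μ ^ 2 =
      (2 + I0) * √τ * μ ^ 2 + 3 * (k + 1) * C ^ 2 * (64 * neckV + k * I0 + Ct) * √τ * μ ^ 2 +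
        Ct * √τ * μ ^ 2 + √τ * μ ^ 2 := by ring
  have hfin4 : 0 ≤ √τ * μ ^ 2 := by positivity
  rw [hfin3]
  linarith

theorem mass : ∀ (k : ℕ) (Λ C : ℝ), ∃ C' : ℝ, 0 < C' ∧
    ∀ (τ : ℝ) (u : E → ℝ) (lam : ℝ) (c : E) (μ ρ T σ : ℝ) (I : Finset ℕ) (mu : ℕ → ℝ)
      (z : ℕ → E), BD k Λ C τ u lam c μ ρ T σ I mu z →
      (∫ x in closedBall c (2 * ρ), |nl lam (u x)| ≤ C' * μ ^ 2) ∧
      (∫ x in closedBall c (2 * ρ), |nl lam (u x)| * ‖x - c‖ ≤ C' * √τ * ρ * μ ^ 2) ∧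
      |(∫ x, chi c ρ x * nl lam (u x)) - σ * I0 * μ ^ 2| ≤ C' * √τ * μ ^ 2 ∧
      |(∫ x, chi c ρ x * u x ^ 2) - I0 * μ ^ 2| ≤ C' * √τ * μ ^ 2 := by
  intro k Λ C
  obtain ⟨Ct, hCt, htail⟩ := integral_U_sq_tail
  obtain ⟨Cd, hCd, hUd⟩ := integral_U_sq_dist
  have hI0 := I0_pos
  have hV := neckV_pos
  have hk : (0 : ℝ) ≤ k := Nat.cast_nonneg k
  set M0 : ℝ := 3 * (k + 1) * C ^ 2 with hM0
  have hM0n : 0 ≤ M0 := by positivity
  set M : ℝ := M0 * (64 * neckV + k * I0 + I0) with hM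
  have hMn : 0 ≤ M := by positivity
  set Ma : ℝ := |Λ| * (M + 64 * neckV) with hMa
  have hMan : 0 ≤ Ma := by positivity
  set Mc : ℝ := 3 + I0 + Ct + M0 * (64 * neckV + k * I0 + Ct) with hMc
  have hMcn : 0 < Mc := by positivity
  set Mw : ℝ := M0 * (2 * (64 * neckV + k * I0) + Cd) with hMw
  have hMwn : 0 ≤ Mw := by positivity
  refine ⟨M + 2 * Ma + Mw + Mc, by positivity, ?_⟩
  intro τ u lam c μ ρ T σ I mu z h
  have hμ := h.hμ
  have hρ := h.hρ.1
  have hτ := h.hτ.1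
  have hu : Continuous u := h.hu.continuous
  set S := closedBall c (2 * ρ) with hSdef
  have hSm : MeasurableSet S := isClosed_closedBall.measurableSet
  have hsq0 : 0 < √τ := Real.sqrt_pos.2 hτ
  have hsq1 : √τ ≤ 1 := Real.sqrt_le_one.2 h.hτ.2
  have hτs : τ ≤ √τ := by
    refine Real.le_sqrt_of_sq_le ?_
    nlinarith [h.hτ.2]
  have hμρ : μ ≤ ρ * τ := by
    have := h.r2
    have h3 : μ ^ 2 ≤ (ρ * τ) ^ 2 := by rw [mul_pow]; linarith
    exact le_of_sq_le_sq h3 (by positivity)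
  have hlam : |lam| ≤ |Λ| := by
    rw [abs_of_nonneg h.hlam.1]
    exact h.hlam.2.trans (le_abs_self Λ)
  have hsq : ∫ x in S, u x ^ 2 ≤ M * μ ^ 2 := by
    have h1 := mass_intG h hSm (Subset.refl _)
    refine h1.trans ?_
    have h2 : ∫ x in S, U μ c x ^ 2 ≤ I0 * μ ^ 2 := by
      rw [← (integral_U_sq hμ c).2]
      exact setIntegral_le_integral (integral_U_sq hμ c).1
        (Filter.Eventually.of_forall fun x => sq_nonneg _)
    have h3 : (64 * neckV + k * I0) * (τ * μ ^ 2) ≤ (64 * neckV + k * I0) * μ ^ 2 := by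
      refine mul_le_mul_of_nonneg_left ?_ (by positivity)
      nlinarith [h.hτ.2, sq_nonneg μ]
    calc _ ≤ M0 * ((64 * neckV + k * I0) * μ ^ 2 + I0 * μ ^ 2) :=
          mul_le_mul_of_nonneg_left (by linarith) hM0n
      _ = M * μ ^ 2 := by rw [hM]; ring
  have habs := mass_abs h hsq
  have hnl : ∀ x, |nl lam (u x)| ≤ |Λ| * |u x| + u x ^ 2 := by
    intro x
    unfold nl
    refine (abs_add_le _ _).trans ?_
    rw [abs_mul, abs_mul, abs_abs]
    have h1 : |u x| * |u x| = u x ^ 2 := by rw [← sq_abs (u x)]; ring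
    rw [h1]
    have := mul_le_mul_of_nonneg_right hlam (abs_nonneg (u x))
    linarith
  have hcnl : Continuous (fun x => nl lam (u x)) := by
    unfold nl
    fun_prop
  have hchi : Continuous (chi c ρ) := (contDiff_chi (n := 0) c ρ).continuous
  have hi1 : IntegrableOn (fun x => |Λ| * |u x|) S :=
    mass_intOn (f := fun x => |Λ| * |u x|) (by fun_prop) c (2 * ρ)
  have hi2 : IntegrableOn (fun x => u x ^ 2) S := mass_intOn (hu.pow 2) c (2 * ρ)
  refine ⟨?_, ?_, ?_, ?_⟩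
  · have h1 : ∫ x in S, |nl lam (u x)| ≤ ∫ x in S, (|Λ| * |u x| + u x ^ 2) :=
      setIntegral_mono_on (mass_intOn hcnl.abs c (2 * ρ)) (hi1.add hi2) hSm fun x _ => hnl x
    rw [integral_add hi1 hi2, integral_const_mul] at h1
    have h2 : |Λ| * (∫ x in S, |u x|) ≤ Ma * μ ^ 2 := by
      calc |Λ| * (∫ x in S, |u x|) ≤ |Λ| * ((M + 64 * neckV) * √τ * μ ^ 2) :=
            mul_le_mul_of_nonneg_left habs (abs_nonneg _)
        _ = Ma * μ ^ 2 * √τ := by rw [hMa]; ring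
        _ ≤ Ma * μ ^ 2 * 1 := mul_le_mul_of_nonneg_left hsq1 (by positivity)
        _ = Ma * μ ^ 2 := mul_one _
    have h3 : 0 ≤ (Ma + Mw + Mc) * μ ^ 2 := by positivity
    calc ∫ x in S, |nl lam (u x)| ≤ Ma * μ ^ 2 + M * μ ^ 2 := by linarith
      _ ≤ Ma * μ ^ 2 + M * μ ^ 2 + (Ma + Mw + Mc) * μ ^ 2 := by linarith
      _ = (M + 2 * Ma + Mw + Mc) * μ ^ 2 := by ring
  · have hi3 : IntegrableOn (fun x => 2 * ρ * (|Λ| * |u x|)) S := hi1.const_mul _
    have hi4 : IntegrableOn (fun x => u x ^ 2 * ‖x - c‖) S :=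
      mass_intOn (f := fun x => u x ^ 2 * ‖x - c‖) (by fun_prop) c (2 * ρ)
    have h1 : ∫ x in S, |nl lam (u x)| * ‖x - c‖ ≤
        ∫ x in S, (2 * ρ * (|Λ| * |u x|) + u x ^ 2 * ‖x - c‖) := by
      refine setIntegral_mono_on (mass_intOn (f := fun x => |nl lam (u x)| * ‖x - c‖)
        (by fun_prop) c (2 * ρ)) (hi3.add hi4) hSm fun x hx => ?_
      have hx' : ‖x - c‖ ≤ 2 * ρ := mem_closedBall_iff_norm.1 hx
      have h2 : |nl lam (u x)| * ‖x - c‖ ≤ (|Λ| * |u x| + u x ^ 2) * ‖x - c‖ :=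
        mul_le_mul_of_nonneg_right (hnl x) (norm_nonneg _)
      have h3 : |Λ| * |u x| * ‖x - c‖ ≤ |Λ| * |u x| * (2 * ρ) :=
        mul_le_mul_of_nonneg_left hx' (by positivity)
      calc _ ≤ (|Λ| * |u x| + u x ^ 2) * ‖x - c‖ := h2
        _ = |Λ| * |u x| * ‖x - c‖ + u x ^ 2 * ‖x - c‖ := by ring
        _ ≤ |Λ| * |u x| * (2 * ρ) + u x ^ 2 * ‖x - c‖ := by linarith
        _ = _ := by ring
    rw [integral_add hi3 hi4, integral_const_mul, integral_const_mul] at h1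
    have h2 : 2 * ρ * (|Λ| * (∫ x in S, |u x|)) ≤ 2 * Ma * √τ * ρ * μ ^ 2 := by
      calc 2 * ρ * (|Λ| * (∫ x in S, |u x|)) ≤ 2 * ρ * (|Λ| * ((M + 64 * neckV) * √τ * μ ^ 2)) := by
            refine mul_le_mul_of_nonneg_left ?_ (by positivity)
            exact mul_le_mul_of_nonneg_left habs (abs_nonneg _)
        _ = 2 * Ma * √τ * ρ * μ ^ 2 := by rw [hMa]; ring
    have h3 := mass_intGw h
    have h4 : ∫ x, U μ c x ^ 2 * ‖x - c‖ ≤ Cd * (ρ * (τ * μ ^ 2)) := by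
      refine (hUd μ c hμ).2.trans ?_
      refine mul_le_mul_of_nonneg_left ?_ hCd.le
      calc μ ^ 3 = μ * μ ^ 2 := by ring
        _ ≤ ρ * τ * μ ^ 2 := mul_le_mul_of_nonneg_right hμρ (sq_nonneg μ)
        _ = ρ * (τ * μ ^ 2) := by ring
    have h5 : ∫ x in S, u x ^ 2 * ‖x - c‖ ≤ Mw * √τ * ρ * μ ^ 2 := by
      calc ∫ x in S, u x ^ 2 * ‖x - c‖ ≤ M0 * (2 * (64 * neckV + k * I0) * (ρ * (τ * μ ^ 2)) +
            ∫ x, U μ c x ^ 2 * ‖x - c‖) := h3
        _ ≤ M0 * (2 * (64 * neckV + k * I0) * (ρ * (τ * μ ^ 2)) + Cd * (ρ * (τ * μ ^ 2))) :=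
            mul_le_mul_of_nonneg_left (by linarith) hM0n
        _ = Mw * ρ * μ ^ 2 * τ := by rw [hMw]; ring
        _ ≤ Mw * ρ * μ ^ 2 * √τ := mul_le_mul_of_nonneg_left hτs (by positivity)
        _ = Mw * √τ * ρ * μ ^ 2 := by ring
    have h6 : 0 ≤ (M + Mc) * √τ * ρ * μ ^ 2 := by positivity
    calc _ ≤ 2 * Ma * √τ * ρ * μ ^ 2 + Mw * √τ * ρ * μ ^ 2 := by linarith
      _ ≤ 2 * Ma * √τ * ρ * μ ^ 2 + Mw * √τ * ρ * μ ^ 2 + (M + Mc) * √τ * ρ * μ ^ 2 := by linarith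
      _ = _ := by ring
  · -- |u| u
    have hσ1 : |σ| = 1 := by rcases h.hσ with h1 | h1 <;> simp [h1]
    have h1 := mass_cmp h (F := fun x => |u x| * u x) (s := σ) (hF := by fun_prop) hσ1
      (fun x => by rw [abs_mul, abs_abs, ← sq_abs (u x)]; exact (by ring_nf; exact le_refl _))
      (fun x => by
        have hU := neck_U_nonneg μ c x
        have e1 : |u x| * u x - σ * U μ c x ^ 2 =
            |u x| * (u x - σ * U μ c x) + (|u x| - U μ c x) * (σ * U μ c x) := by ring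
        have e2 : |(|u x| - U μ c x)| ≤ |u x - σ * U μ c x| := by
          have e3 : U μ c x = |σ * U μ c x| := by rw [abs_mul, hσ1, one_mul, abs_of_nonneg hU]
          have := abs_abs_sub_abs_le (u x) (σ * U μ c x)
          rw [← e3] at this
          exact this
        have e4 : |u x| ≤ |u x - σ * U μ c x| + U μ c x := by
          have := abs_sub_abs_le_abs_sub (u x) (σ * U μ c x)
          rw [abs_mul σ, hσ1, one_mul, abs_of_nonneg hU] at this
          linarith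
        rw [e1]
        refine (abs_add_le _ _).trans ?_
        rw [abs_mul, abs_abs, abs_mul, abs_mul σ, hσ1, one_mul, abs_of_nonneg hU]
        have e5 := abs_nonneg (u x - σ * U μ c x)
        nlinarith [mul_le_mul_of_nonneg_right e4 e5, mul_le_mul_of_nonneg_right e2 hU])
      hCt htail
    have h2 : ∫ x, chi c ρ x * nl lam (u x) =
        (∫ x, chi c ρ x * (|u x| * u x)) + lam * ∫ x, chi c ρ x * u x := by
      have i1 : Integrable (fun x => chi c ρ x * (|u x| * u x)) :=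
        Continuous.integrable_of_hasCompactSupport (by fun_prop) ((hasCompactSupport_chi c hρ).mul_right)
      have i2 : Integrable (fun x => lam * (chi c ρ x * u x)) :=
        (Continuous.integrable_of_hasCompactSupport (by fun_prop)
          ((hasCompactSupport_chi c hρ).mul_right)).const_mul lam
      rw [← integral_const_mul, ← integral_add i1 i2]
      refine integral_congr_ae (Filter.Eventually.of_forall fun x => ?_)
      simp only [nl]
      ring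
    have h3 : |lam * ∫ x, chi c ρ x * u x| ≤ Ma * √τ * μ ^ 2 := by
      have h4 : |∫ x, chi c ρ x * u x| ≤ ∫ x in S, |u x| := by
        have e1 : ∫ x, chi c ρ x * u x = ∫ x in S, chi c ρ x * u x := by
          refine (setIntegral_eq_integral_of_forall_compl_eq_zero fun x hx => ?_).symm
          rw [hSdef, mem_closedBall_iff_norm, not_le] at hx
          rw [chi_eq_zero hρ hx.le, zero_mul]
        rw [e1, ← Real.norm_eq_abs]
        refine norm_integral_le_of_norm_le (mass_intOn hu.abs c (2 * ρ))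
          (Filter.Eventually.of_forall fun x => ?_)
        rw [norm_mul, Real.norm_eq_abs, Real.norm_eq_abs, abs_of_nonneg (chi_nonneg _ _ _)]
        calc chi c ρ x * |u x| ≤ 1 * |u x| :=
              mul_le_mul_of_nonneg_right (chi_le_one _ _ _) (abs_nonneg _)
          _ = |u x| := one_mul _
      rw [abs_mul]
      calc |lam| * |∫ x, chi c ρ x * u x| ≤ |Λ| * ∫ x in S, |u x| :=
            mul_le_mul hlam h4 (abs_nonneg _) (abs_nonneg _)
        _ ≤ |Λ| * ((M + 64 * neckV) * √τ * μ ^ 2) := mul_le_mul_of_nonneg_left habs (abs_nonneg _)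
        _ = Ma * √τ * μ ^ 2 := by rw [hMa]; ring
    have h4 : (∫ x, chi c ρ x * nl lam (u x)) - σ * I0 * μ ^ 2 =
        ((∫ x, chi c ρ x * (|u x| * u x)) - σ * (I0 * μ ^ 2)) + lam * ∫ x, chi c ρ x * u x := by
      rw [h2]; ring
    rw [h4]
    refine (abs_add_le _ _).trans ?_
    have h5 : 0 ≤ (M + Ma + Mw) * √τ * μ ^ 2 := by positivity
    calc _ ≤ Mc * √τ * μ ^ 2 + Ma * √τ * μ ^ 2 := add_le_add h1 h3
      _ ≤ Mc * √τ * μ ^ 2 + Ma * √τ * μ ^ 2 + (M + Ma + Mw) * √τ * μ ^ 2 := by linarith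
      _ = _ := by ring
  · -- u ^ 2
    have hσ2 : σ ^ 2 = 1 := by rcases h.hσ with h1 | h1 <;> simp [h1]
    have hσ1 : |σ| = 1 := by rcases h.hσ with h1 | h1 <;> simp [h1]
    have h1 := mass_cmp h (F := fun x => u x ^ 2) (s := 1) (hF := by fun_prop) (by simp)
      (fun x => by rw [abs_of_nonneg (sq_nonneg _)])
      (fun x => by
        have hU := neck_U_nonneg μ c x
        have e1 : u x ^ 2 - 1 * U μ c x ^ 2 =
            (u x - σ * U μ c x) * ((u x - σ * U μ c x) + 2 * (σ * U μ c x)) := by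
          have : (σ * U μ c x) ^ 2 = U μ c x ^ 2 := by rw [mul_pow, hσ2, one_mul]
          linear_combination this
        rw [e1, abs_mul]
        refine mul_le_mul_of_nonneg_left ?_ (abs_nonneg _)
        refine (abs_add_le _ _).trans ?_
        rw [abs_mul 2, abs_mul σ, hσ1, one_mul, abs_of_nonneg hU]
        norm_num)
      hCt htail
    rw [one_mul] at h1
    refine h1.trans ?_
    have h5 : 0 ≤ (M + 2 * Ma + Mw) * √τ * μ ^ 2 := by positivity
    calc _ ≤ Mc * √τ * μ ^ 2 + (M + 2 * Ma + Mw) * √τ * μ ^ 2 := by linarith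
      _ = _ := by ring

end Pool.Helper4.BT
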