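import Pool.Agent.Helper83.BT.CHI

/-! Block NECK of the bubble tower project (helper22). -/

namespace Pool.Helper4.BT
open MeasureTheory Metric Set Laplacian InnerProductSpace

/-- The volume of the unit ball of `ℝ⁶`. -/
noncomputable def neckV : ℝ := (volume : Measure E).real (ball (0 : E) 1)

theorem neckV_pos : 0 < neckV := by
  rw [neckV, Measure.real]
  exact ENNReal.toReal_pos (measure_ball_pos volume (0 : E) one_pos).ne' measure_ball_lt_top.ne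

theorem neck_vol (c : E) {r : ℝ} (hr : 0 ≤ r) :
    (volume : Measure E).real (closedBall c r) = r ^ 6 * neckV := by
  rw [Measure.real, Measure.addHaar_closedBall _ _ hr, neckV, Measure.real, ENNReal.toReal_mul,
    ENNReal.toReal_ofReal (by positivity)]
  simp

theorem neck_U_nonneg (μ : ℝ) (z x : E) : 0 ≤ U μ z x := by
  unfold U; positivity

theorem neck_U_le {μ : ℝ} (z x : E) {r : ℝ} (hr : 0 < r) (h : r ≤ ‖x - z‖) :
    U μ z x ≤ 24 * μ ^ 2 / r ^ 4 := by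
  unfold U A
  have h1 : r ^ 2 ≤ μ ^ 2 + ‖x - z‖ ^ 2 := by
    have : r ^ 2 ≤ ‖x - z‖ ^ 2 := pow_le_pow_left₀ hr.le h 2
    nlinarith [sq_nonneg μ]
  have h2 : r ^ 4 ≤ (μ ^ 2 + ‖x - z‖ ^ 2) ^ 2 := by
    have := pow_le_pow_left₀ (by positivity) h1 2
    calc r ^ 4 = (r ^ 2) ^ 2 := by ring
      _ ≤ _ := this
  exact div_le_div_of_nonneg_left (by positivity) (by positivity) h2

theorem neck : ∀ (k : ℕ) (Λ C : ℝ), ∃ C' : ℝ, 0 < C' ∧
    ∀ (τ : ℝ) (u : E → ℝ) (lam : ℝ) (c : E) (μ ρ T σ : ℝ) (I : Finset ℕ) (mu : ℕ → ℝ)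
      (z : ℕ → E), BD k Λ C τ u lam c μ ρ T σ I mu z →
      ∫ x, |Gp lam (u x)| * ‖fderiv ℝ (chi c ρ) x‖ ≤ C' * (ρ ^ 5 * T ^ 3 + μ ^ 6 / ρ ^ 7) := by
  intro k Λ C
  obtain ⟨Cχ, hCχ, hχ⟩ := exists_fderiv_chi_le
  set C1 : ℝ := |C| * (24 + 76 * k) with hC1
  have hC1n : 0 ≤ C1 := by positivity
  set C2 : ℝ := |Λ| / 2 * C1 ^ 2 + C1 ^ 3 / 3 with hC2
  have hC2n : 0 ≤ C2 := by positivity
  refine ⟨C2 * 4 * Cχ * 64 * neckV + 1, by have := neckV_pos; positivity, ?_⟩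
  intro τ u lam c μ ρ T σ I mu z h
  have hρ := h.hρ.1
  have hμ := h.hμ
  have hT := h.hT
  have hV := neckV_pos
  have key : ∀ x, ρ ≤ ‖x - c‖ → ‖x - c‖ ≤ 2 * ρ → |u x| ≤ C1 * (T + μ ^ 2 / ρ ^ 4) := by
    intro x hx1 hx2
    have hb := h.bound x (mem_closedBall_iff_norm.2 hx2)
    have hU : U μ c x ≤ 24 * μ ^ 2 / ρ ^ 4 := neck_U_le c x hρ hx1
    have hUl : ∀ l ∈ I, U (mu l) (z l) x ≤ 76 * (μ ^ 2 / ρ ^ 4) := by
      intro l hl
      obtain ⟨h1, h2, h3⟩ := h.hin l hl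
      have h4 : 3 / 4 * ρ ≤ ‖x - z l‖ := by
        have h5 : ‖x - c‖ ≤ ‖x - z l‖ + ‖z l - c‖ := by
          have := norm_add_le (x - z l) (z l - c)
          rwa [sub_add_sub_cancel] at this
        linarith
      have h6 := neck_U_le (μ := mu l) (z l) x (by positivity : 0 < 3 / 4 * ρ) h4
      have h7 : mu l ≤ μ := h2.trans (by nlinarith [h.hτ.2])
      have h8 : mu l ^ 2 ≤ μ ^ 2 := pow_le_pow_left₀ h1.le h7 2
      refine h6.trans ?_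
      rw [mul_pow, div_le_iff₀ (by positivity)]
      have h9 : 76 * (μ ^ 2 / ρ ^ 4) * ((3 / 4) ^ 4 * ρ ^ 4) = 76 * (3 / 4) ^ 4 * μ ^ 2 := by
        field_simp
      rw [h9]
      nlinarith [sq_nonneg μ]
    have hsum : ∑ l ∈ I, U (mu l) (z l) x ≤ k * (76 * (μ ^ 2 / ρ ^ 4)) := by
      calc ∑ l ∈ I, U (mu l) (z l) x ≤ ∑ l ∈ I, 76 * (μ ^ 2 / ρ ^ 4) := Finset.sum_le_sum hUl
        _ = I.card * (76 * (μ ^ 2 / ρ ^ 4)) := by rw [Finset.sum_const, nsmul_eq_mul]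
        _ ≤ k * (76 * (μ ^ 2 / ρ ^ 4)) := by
            have : (I.card : ℝ) ≤ k := by exact_mod_cast h.hI
            exact mul_le_mul_of_nonneg_right this (by positivity)
    have hS0 : 0 ≤ T + U μ c x + ∑ l ∈ I, U (mu l) (z l) x := by
      have h1 := neck_U_nonneg μ c x
      have h2 : 0 ≤ ∑ l ∈ I, U (mu l) (z l) x := Finset.sum_nonneg fun l _ => neck_U_nonneg _ _ _
      linarith
    have hS : T + U μ c x + ∑ l ∈ I, U (mu l) (z l) x ≤ (24 + 76 * k) * (T + μ ^ 2 / ρ ^ 4) := by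
      have h1 : 0 ≤ μ ^ 2 / ρ ^ 4 := by positivity
      have h2 : (0 : ℝ) ≤ k := Nat.cast_nonneg k
      have h3 : 24 * μ ^ 2 / ρ ^ 4 = 24 * (μ ^ 2 / ρ ^ 4) := by ring
      rw [h3] at hU
      nlinarith [mul_nonneg h2 (by linarith : (0 : ℝ) ≤ T)]
    calc |u x| ≤ C * (T + U μ c x + ∑ l ∈ I, U (mu l) (z l) x) := hb
      _ ≤ |C| * (T + U μ c x + ∑ l ∈ I, U (mu l) (z l) x) :=
          mul_le_mul_of_nonneg_right (le_abs_self C) hS0
      _ ≤ |C| * ((24 + 76 * k) * (T + μ ^ 2 / ρ ^ 4)) := mul_le_mul_of_nonneg_left hS (abs_nonneg C)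
      _ = C1 * (T + μ ^ 2 / ρ ^ 4) := by rw [hC1]; ring
  set s : ℝ := T + μ ^ 2 / ρ ^ 4 with hs
  have hs1 : 1 ≤ s := by
    have : 0 ≤ μ ^ 2 / ρ ^ 4 := by positivity
    linarith
  have hΛ : lam ≤ |Λ| := h.hlam.2.trans (le_abs_self Λ)
  have hG : ∀ x, ρ ≤ ‖x - c‖ → ‖x - c‖ ≤ 2 * ρ → |Gp lam (u x)| ≤ C2 * s ^ 3 := by
    intro x hx1 hx2
    have h1 := key x hx1 hx2
    have h2 : |u x| ^ 2 ≤ C1 ^ 2 * s ^ 3 := by
      calc |u x| ^ 2 ≤ (C1 * s) ^ 2 := pow_le_pow_left₀ (abs_nonneg _) h1 2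
        _ = C1 ^ 2 * s ^ 2 := by ring
        _ ≤ C1 ^ 2 * s ^ 3 := by
            refine mul_le_mul_of_nonneg_left ?_ (by positivity)
            exact pow_le_pow_right₀ hs1 (by norm_num)
    have h3 : |u x| ^ 3 ≤ C1 ^ 3 * s ^ 3 := by
      calc |u x| ^ 3 ≤ (C1 * s) ^ 3 := pow_le_pow_left₀ (abs_nonneg _) h1 3
        _ = C1 ^ 3 * s ^ 3 := by ring
    have h4 : 0 ≤ lam * u x ^ 2 / 2 := by
      have := h.hlam.1
      positivity
    rw [Gp, abs_of_nonneg (by positivity)]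
    have h5 : lam * u x ^ 2 ≤ |Λ| * (C1 ^ 2 * s ^ 3) := by
      rw [← sq_abs (u x)]
      exact mul_le_mul hΛ h2 (by positivity) (abs_nonneg _)
    calc lam * u x ^ 2 / 2 + |u x| ^ 3 / 3 ≤ |Λ| * (C1 ^ 2 * s ^ 3) / 2 + C1 ^ 3 * s ^ 3 / 3 := by
          linarith
      _ = C2 * s ^ 3 := by rw [hC2]; ring
  have hs3 : s ^ 3 ≤ 4 * (T ^ 3 + μ ^ 6 / ρ ^ 12) := by
    have h1 : (0 : ℝ) ≤ μ ^ 2 / ρ ^ 4 := by positivity
    have h2 : (μ ^ 2 / ρ ^ 4) ^ 3 = μ ^ 6 / ρ ^ 12 := by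
      rw [div_pow, ← pow_mul, ← pow_mul]
    rw [← h2, hs]
    have hT0 : (0 : ℝ) ≤ T := by linarith
    nlinarith [mul_nonneg (add_nonneg hT0 h1) (sq_nonneg (T - μ ^ 2 / ρ ^ 4))]
  have hpt : ∀ x ∈ closedBall c (2 * ρ), ‖|Gp lam (u x)| * ‖fderiv ℝ (chi c ρ) x‖‖ ≤
      C2 * (4 * (T ^ 3 + μ ^ 6 / ρ ^ 12)) * (Cχ / ρ) := by
    intro x hx
    rw [mem_closedBall_iff_norm] at hx
    rw [norm_mul, norm_norm, Real.norm_eq_abs, abs_abs]
    rcases lt_or_ge ‖x - c‖ ρ with h1 | h1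
    · rw [fderiv_chi_eq_zero hρ (Or.inl h1), norm_zero, mul_zero]
      positivity
    · have h2 := hG x h1 hx
      have h3 := (hχ c ρ x hρ).1
      exact mul_le_mul (h2.trans (mul_le_mul_of_nonneg_left hs3 hC2n)) h3 (norm_nonneg _)
        (by positivity)
  have hzero : ∀ x, x ∉ closedBall c (2 * ρ) → |Gp lam (u x)| * ‖fderiv ℝ (chi c ρ) x‖ = 0 := by
    intro x hx
    rw [mem_closedBall_iff_norm, not_le] at hx
    rw [fderiv_chi_eq_zero hρ (Or.inr hx), norm_zero, mul_zero]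
  rw [← setIntegral_eq_integral_of_forall_compl_eq_zero hzero]
  have h1 := norm_setIntegral_le_of_norm_le_const
    (measure_closedBall_lt_top (μ := (volume : Measure E)) (x := c) (r := 2 * ρ)) hpt
  refine (le_abs_self _).trans (h1.trans ?_)
  rw [neck_vol c (by positivity)]
  have h2 : C2 * (4 * (T ^ 3 + μ ^ 6 / ρ ^ 12)) * (Cχ / ρ) * ((2 * ρ) ^ 6 * neckV) =
      C2 * 4 * Cχ * 64 * neckV * (ρ ^ 5 * T ^ 3 + μ ^ 6 / ρ ^ 7) := by
    field_simp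
    ring
  rw [h2]
  refine mul_le_mul_of_nonneg_right (by linarith) ?_
  have : (0 : ℝ) ≤ T := by linarith
  positivity

end Pool.Helper4.BT
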